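import Pool.Agent.Bellows.Final3
import Pool.Agent.Bellows.Pseudo

/-!
# The bellows conjecture in hyperbolic spaces, with vertices at infinity

For every `n = m + 3 ≥ 3` the generalised oriented volume of every flexible polyhedron in `Λⁿ`, with
vertices in `Λⁿ` or on the absolute, is finite and constant during the flexion.

The definitions are in `Pool/Agent/Bellows/Basic.lean` (the Lorentz form `lf`) and
`Pool/Agent/Bellows/Defs.lean` (everything else). The combinatorial type of the polyhedron is an
arbitrary finite simplicial cycle with integer coefficients; in particular it can be any finite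
oriented closed pseudomanifold (`Bellows.OrientedPseudomanifold.toCycle`).
-/

set_option autoImplicit false

namespace Pool.Agent.Results.MP_424e3d_gt.BellowsUnbounded

open Bellows MeasureTheory

/-- **Bellows conjecture in `Λⁿ`, `n = m + 3 ≥ 3`, for polyhedra with finite or ideal vertices.**
For every flexion `P t`, `t ∈ [0, 1]`, the function `λ` defining the generalised oriented volume is
integrable with respect to the hyperbolic volume, and the volume at `t` is the volume at `0`. -/
theorem result : ∀ (m N : ℕ) (K : Cycle (m + 2) N) (P : ℝ → Fin N → E (m + 3)), IsFlexion K P →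
    ∀ t ∈ Set.Icc (0 : ℝ) 1,
      IntegrableOn (fun x : E (m + 3) => (lam K (P t) x : ℝ) *
        (1 - ‖x‖ ^ 2) ^ (-(((m + 2 : ℕ) : ℝ) + 2) / 2)) (Metric.ball (0 : E (m + 3)) 1) ∧
      vol K (P t) = vol K (P 0) := by
  intro m N K P hP t ht
  refine ⟨(vol_eq K (P t) (hP.mem t ht) (Pi.single 0 1) FT.single.1 FT.single.2).1, ?_⟩
  rcases Nat.eq_zero_or_pos m with rfl | hm
  · exact volume_const_three K P hP t ht
  · exact volume_const_n hm K P hP t ht

end Pool.Agent.Results.MP_424e3d_gt.BellowsUnbounded
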